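import Pool.Agent.Q172.FTO.Def

/-!
# Project FTO (helper172): no homogeneous continuum maps onto `XS` by a finite-to-one map
-/

set_option autoImplicit false

open Set Topology

namespace Pool.Agent.Q275.FTO

open Pool.Agent.Q172.FTO

/-- the centre -/
lemma c_mem : ((1 / 2, 0, 0) : ℝ × ℝ × ℝ) ∈ XS := Or.inl ⟨by norm_num, by norm_num, rfl, rfl⟩

/-- the arm number `i` at `1/2` without the centre -/
def A (i : ℕ) : Set XS :=
  {p | p.1.1 = 1 / 2 ∧ 0 < p.1.2.1 ∧ p.1.2.1 ≤ 1 / 8 * (1 / 2) ^ i ∧ p.1.2.2 = p.1.2.1 * (1 / 2) ^ i}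

lemma A_eq (hG : S_G) (i : ℕ) : A i = {p : XS | 1 / 3 < p.1.1 ∧ p.1.1 < 2 / 3 ∧ 0 < p.1.2.1 ∧
    3 / 4 * (1 / 2) ^ i * p.1.2.1 < p.1.2.2 ∧ p.1.2.2 < 3 / 2 * (1 / 2) ^ i * p.1.2.1} := by
  obtain ⟨_, _, g3, _, _, g6, _⟩ := hG
  have hi : (0 : ℝ) < (1 / 2) ^ i := by positivity
  ext ⟨⟨x, ρ, τ⟩, hp⟩
  constructor
  · rintro ⟨h1, h2, h3, h4⟩
    simp only at h1 h2 h3 h4
    show 1 / 3 < x ∧ x < 2 / 3 ∧ 0 < ρ ∧ 3 / 4 * (1 / 2) ^ i * ρ < τ ∧ τ < 3 / 2 * (1 / 2) ^ i * ρ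
    have h5 : 0 < (1 / 2) ^ i * ρ := by positivity
    refine ⟨by rw [h1]; norm_num, by rw [h1]; norm_num, h2, ?_, ?_⟩
    · rw [h4]; nlinarith
    · rw [h4]; nlinarith
  · rintro ⟨h1, h2, h3, h4, h5⟩
    simp only at h1 h2 h3 h4 h5
    rcases hp with hp | ⟨m, d, hm, j, hp⟩
    · have : ρ = 0 := hp.2.2.1
      linarith
    · obtain ⟨e1, _, e3, e4⟩ := hp
      simp only at e1 e3 e4
      have hm2 : m = 1 / 2 := by
        by_contra hne
        rcases g6 m d hm hne with h | h <;> linarith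
      subst hm2
      have hd : d = 1 / 8 := g3 _ _ _ hm G.base
      subst hd
      have hij : j = i := by
        rw [e4] at h4 h5
        have h6 : 3 / 4 * (1 / 2 : ℝ) ^ i < (1 / 2) ^ j := by
          have : 3 / 4 * (1 / 2 : ℝ) ^ i * ρ < (1 / 2) ^ j * ρ := by linarith
          exact lt_of_mul_lt_mul_right this h3.le
        have h7 : (1 / 2 : ℝ) ^ j < 3 / 2 * (1 / 2) ^ i := by
          have : (1 / 2 : ℝ) ^ j * ρ < 3 / 2 * (1 / 2) ^ i * ρ := by linarith
          exact lt_of_mul_lt_mul_right this h3.le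
        rcases lt_trichotomy j i with h | h | h
        · exfalso
          have h8 : (1 / 2 : ℝ) ^ i ≤ (1 / 2) ^ (j + 1) :=
            pow_le_pow_of_le_one (by norm_num) (by norm_num) h
          rw [pow_succ] at h8
          linarith
        · exact h
        · exfalso
          have h8 : (1 / 2 : ℝ) ^ j ≤ (1 / 2) ^ (i + 1) :=
            pow_le_pow_of_le_one (by norm_num) (by norm_num) h
          rw [pow_succ] at h8
          linarith
      subst hij
      exact ⟨e1, h3, e3, e4⟩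

lemma A_open (hG : S_G) (i : ℕ) : IsOpen (A i) := by
  rw [A_eq hG]
  have c1 : Continuous fun p : XS => p.1.1 := continuous_fst.comp continuous_subtype_val
  have c2 : Continuous fun p : XS => p.1.2.1 :=
    continuous_fst.comp (continuous_snd.comp continuous_subtype_val)
  have c3 : Continuous fun p : XS => p.1.2.2 :=
    continuous_snd.comp (continuous_snd.comp continuous_subtype_val)
  exact (isOpen_lt continuous_const c1).inter ((isOpen_lt c1 continuous_const).inter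
    ((isOpen_lt continuous_const c2).inter ((isOpen_lt (continuous_const.mul c2) c3).inter
      (isOpen_lt c3 (continuous_const.mul c2)))))

lemma A_closure (i : ℕ) : closure (A i) ⊆ A i ∪ {⟨_, c_mem⟩} := by
  have c1 : Continuous fun p : XS => p.1.1 := continuous_fst.comp continuous_subtype_val
  have c2 : Continuous fun p : XS => p.1.2.1 :=
    continuous_fst.comp (continuous_snd.comp continuous_subtype_val)
  have c3 : Continuous fun p : XS => p.1.2.2 :=
    continuous_snd.comp (continuous_snd.comp continuous_subtype_val)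
  have hcl : IsClosed {p : XS | p.1.1 = 1 / 2 ∧ 0 ≤ p.1.2.1 ∧ p.1.2.1 ≤ 1 / 8 * (1 / 2) ^ i ∧
      p.1.2.2 = p.1.2.1 * (1 / 2) ^ i} :=
    (isClosed_eq c1 continuous_const).inter ((isClosed_le continuous_const c2).inter
      ((isClosed_le c2 continuous_const).inter (isClosed_eq c3 (c2.mul continuous_const))))
  have hsub : A i ⊆ {p : XS | p.1.1 = 1 / 2 ∧ 0 ≤ p.1.2.1 ∧ p.1.2.1 ≤ 1 / 8 * (1 / 2) ^ i ∧
      p.1.2.2 = p.1.2.1 * (1 / 2) ^ i} := fun p hp => ⟨hp.1, hp.2.1.le, hp.2.2.1, hp.2.2.2⟩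
  refine (closure_minimal hsub hcl).trans ?_
  rintro ⟨⟨x, ρ, τ⟩, hp⟩ ⟨h1, h2, h3, h4⟩
  simp only at h1 h2 h3 h4
  rcases h2.lt_or_eq with h | h
  · exact Or.inl ⟨h1, h, h3, h4⟩
  · right
    rw [mem_singleton_iff]
    apply Subtype.ext
    show (x, ρ, τ) = (1 / 2, 0, 0)
    rw [← h, zero_mul] at h4
    rw [h1, h4, ← h]

lemma A_nonempty (i : ℕ) : (A i).Nonempty := by
  have hi : (0 : ℝ) < (1 / 2) ^ i := by positivity
  refine ⟨⟨(1 / 2, 1 / 8 * (1 / 2) ^ i, 1 / 8 * (1 / 2) ^ i * (1 / 2) ^ i), Or.inr ⟨1 / 2, 1 / 8, G.base, i,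
    rfl, by positivity, le_rfl, rfl⟩⟩, rfl, by show (0 : ℝ) < _; positivity, le_rfl, rfl⟩

lemma A_disj {i j : ℕ} (hij : i ≠ j) : Disjoint (A i) (A j) := by
  rw [Set.disjoint_left]
  rintro p ⟨_, h1, _, h2⟩ ⟨_, _, _, h3⟩
  rw [h2] at h3
  have h4 : (1 / 2 : ℝ) ^ i = (1 / 2) ^ j := mul_left_cancel₀ h1.ne' h3
  exact hij (pow_right_injective₀ (by norm_num) (by norm_num) h4)

lemma R_homeo {Y : Type} [TopologicalSpace Y] (h : Y ≃ₜ Y) {y : Y} (hy : R y) : R (h y) := by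
  intro U hU
  obtain ⟨C, h1, h2⟩ := hy (h ⁻¹' U) (h.continuous.continuousAt hU)
  refine ⟨fun i => h '' C i, fun i => ?_, fun i j hij => ?_⟩
  · obtain ⟨a1, a2, a3, a4, a5⟩ := h1 i
    exact ⟨a1.image h.continuous, a2.image _ h.continuous.continuousOn, mem_image_of_mem _ a3,
      a4.image h.injective, image_subset_iff.2 a5⟩
  · rintro z ⟨⟨a, ha, rfl⟩, b, hb, hab⟩
    have : b = a := h.injective hab
    subst this
    have h3 : b ∈ ({y} : Set Y) := h2 i j hij ⟨ha, hb⟩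
    rw [mem_singleton_iff] at h3 ⊢
    rw [h3]

/-- **no homogeneous continuum maps onto `XS` finite-to-one** -/
theorem job7 : S_neg := by
  intro hG _ hR hInf Y _ _ _ hhom hq
  obtain ⟨q, hqc, hqs, hqf⟩ := hq
  obtain ⟨y, -, hy⟩ := hR Y (q ⁻¹' {⟨_, c_mem⟩}) (fun i => q ⁻¹' (A i)) (hqf _)
    (fun i => ⟨(A_open hG i).preimage hqc, (A_nonempty i).preimage hqs, by
      refine Disjoint.preimage q ?_
      rw [Set.disjoint_singleton_right]
      rintro ⟨_, h, _⟩
      exact lt_irrefl _ h, by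
      refine (hqc.closure_preimage_subset _).trans ?_
      rw [← preimage_union]
      exact preimage_mono (A_closure i)⟩)
    (fun i j hij => (A_disj hij).preimage q) ((singleton_nonempty _).preimage hqs)
  have hall : ∀ z : Y, R z := by
    intro z
    obtain ⟨h, hh⟩ := hhom y z
    rw [← hh]
    exact R_homeo h hy
  have c1 : Continuous fun p : XS => p.1.1 := continuous_fst.comp continuous_subtype_val
  have hP : Continuous fun y : Y => (q y).1.1 := c1.comp hqc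
  obtain ⟨t, ht⟩ := hInf Y {y | 1 / 3 < (q y).1.1 ∧ (q y).1.1 < 1 / 2} (fun y => (q y).1.1)
    ((isOpen_lt continuous_const hP).inter (isOpen_lt hP continuous_const))
    (by
      obtain ⟨z, hz⟩ := hqs ⟨(2 / 5, 0, 0), Or.inl ⟨by norm_num, by norm_num, rfl, rfl⟩⟩
      refine ⟨z, ?_, ?_⟩
      · show 1 / 3 < (q z).1.1
        rw [hz]; norm_num
      · show (q z).1.1 < 1 / 2
        rw [hz]; norm_num)
    (fun z _ => hall z) hP
  apply ht
  obtain ⟨_, _, g3, _, _, g6, _⟩ := hG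
  have harc : ∀ y : Y, (1 / 3 < (q y).1.1 ∧ (q y).1.1 < 1 / 2) → (q y).1.2.1 = 0 ∧ (q y).1.2.2 = 0 := by
    intro y hy
    rcases (q y).2 with hp | ⟨m, d, hm, j, hp⟩
    · exact ⟨hp.2.2.1, hp.2.2.2⟩
    · exfalso
      have e1 : (q y).1.1 = m := hp.1
      have hne : m ≠ 1 / 2 := by
        rw [← e1]
        exact hy.2.ne
      rcases g6 m d hm hne with h | h
      · rw [← e1] at h; linarith [hy.1]
      · rw [← e1] at h; linarith [hy.2]
  by_cases hne : {y | y ∈ {y | 1 / 3 < (q y).1.1 ∧ (q y).1.1 < 1 / 2} ∧ (q y).1.1 = t}.Nonempty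
  · obtain ⟨y0, hy0, hy0t⟩ := hne
    refine (hqf (q y0)).subset ?_
    rintro z ⟨hz, hzt⟩
    have h1 := harc z hz
    have h2 := harc y0 hy0
    show q z ∈ ({q y0} : Set XS)
    rw [mem_singleton_iff]
    apply Subtype.ext
    refine Prod.ext ?_ (Prod.ext ?_ ?_)
    · rw [hzt, hy0t]
    · rw [h1.1, h2.1]
    · rw [h1.2, h2.2]
  · rw [not_nonempty_iff_eq_empty] at hne
    rw [hne]
    exact finite_empty

end Pool.Agent.Q275.FTO
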